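import Mathlib

/-!
# Coordinate 2-colourings without a polychromatic colouring

Let `Y` be the space of all `y = (y i)`, `i < d`, with `y i : ℤ^d → {0,1}`. The `i`-th generator of
`ℤ^d` flips all values of `y i` and shifts the other components. On the free part of this action
`y ↦ y i 0` is a proper 2-colouring of the `i`-th coordinate subaction. A polychromatic colouring
with `2 ^ d` colours gives a tiling of the orbits by unit cubes, and the `i`-th coordinate of the
position in the tile is a function `t i` which is flipped by the `i`-th generator. By a Baire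
category argument `t i` depends generically on the component `y i` only, which contradicts
the local structure of the tilings.
-/

namespace Pool.Agent.Results.MP_27056a_lc.NoPolychromatic

open Set Topology Filter MeasureTheory

/-- `c` is a Borel proper 2-colouring of the action of the `i`-th generator. -/
def IsCoordColoring {d : ℕ} {X : Type} [MeasurableSpace X] [AddAction (Fin d → ℤ) X] (i : Fin d)
    (c : X → Bool) : Prop :=
  Measurable c ∧ ∀ x, c ((Pi.single i 1 : Fin d → ℤ) +ᵥ x) ≠ c x

/-- `p` is a Borel `k`-polychromatic colouring: every unit cube `{0,1}^d + x` contains points of all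
`k` colours. -/
def IsPolychromatic (d k : ℕ) {X : Type} [MeasurableSpace X] [AddAction (Fin d → ℤ) X]
    (p : X → Fin k) : Prop :=
  Measurable p ∧ ∀ x, ∀ j : Fin k, ∃ s : Fin d → ℤ, (∀ i, s i = 0 ∨ s i = 1) ∧ p (s +ᵥ x) = j

section Space

variable {d : ℕ}

/-- The configuration space. -/
abbrev Y (d : ℕ) : Type := Fin d → (Fin d → ℤ) → Bool

/-- The action of `ℤ^d`. -/
def act (u : Fin d → ℤ) (y : Y d) : Y d :=
  fun i w => xor (y i (w + Function.update u i 0)) (u i).bodd

theorem act_zero (y : Y d) : act 0 y = y := by
  funext i w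
  have : Function.update (0 : Fin d → ℤ) i 0 = 0 := Function.update_eq_self i 0
  simp [act, this]

theorem act_add (u v : Fin d → ℤ) (y : Y d) : act (u + v) y = act u (act v y) := by
  funext i w
  have h : Function.update (u + v) i 0 = Function.update u i 0 + Function.update v i 0 := by
    funext k
    by_cases hk : k = i
    · subst hk; simp
    · simp [Function.update_of_ne hk]
  simp only [act, h, Pi.add_apply, Int.bodd_add, add_assoc]
  cases (u i).bodd <;> cases (v i).bodd <;> simp

theorem continuous_act (u : Fin d → ℤ) : Continuous (act u) := by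
  refine continuous_pi fun i => continuous_pi fun w => ?_
  have h1 : Continuous fun y : Y d => y i (w + Function.update u i 0) :=
    (continuous_apply _).comp (continuous_apply i)
  exact (continuous_of_discreteTopology (f := fun b : Bool => xor b (u i).bodd)).comp h1

/-- The action as a homeomorphism. -/
def actH (u : Fin d → ℤ) : Y d ≃ₜ Y d where
  toFun := act u
  invFun := act (-u)
  left_inv y := by rw [← act_add, neg_add_cancel, act_zero]
  right_inv y := by rw [← act_add, add_neg_cancel, act_zero]
  continuous_toFun := continuous_act u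
  continuous_invFun := continuous_act (-u)

theorem generic_act (u : Fin d → ℤ) {P : Y d → Prop} (h : ∀ᵇ y, P y) : ∀ᵇ y, P (act u y) := by
  have h1 : Tendsto (act u) (residual (Y d)) (residual (Y d)) := (actH u).residual_map_eq.le
  exact h1.eventually h

/-- The basic open box of radius `M` around `a`. -/
def cyl (M : ℤ) (a : Y d) : Set (Y d) :=
  {y | ∀ k w, (∀ l, |w l| ≤ M) → y k w = a k w}

/-- The basic open box in the component `i`. -/
def cylI (i : Fin d) (M : ℤ) (a : Y d) : Set (Y d) :=
  {y | ∀ w, (∀ l, |w l| ≤ M) → y i w = a i w}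

theorem finite_box (M : ℤ) : {w : Fin d → ℤ | ∀ l, |w l| ≤ M}.Finite := by
  refine (Set.Finite.pi' (fun _ : Fin d => Set.finite_Icc (-M) M)).subset fun w hw l => ?_
  exact abs_le.mp (hw l)

theorem isOpen_cylI (i : Fin d) (M : ℤ) (a : Y d) : IsOpen (cylI i M a) := by
  have : cylI i M a = ⋂ w ∈ {w : Fin d → ℤ | ∀ l, |w l| ≤ M}, {y : Y d | y i w = a i w} := by
    ext y
    simp [cylI]
  rw [this]
  refine (finite_box M).isOpen_biInter fun w _ => ?_
  have : {y : Y d | y i w = a i w} = (fun y : Y d => y i w) ⁻¹' {a i w} := rfl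
  rw [this]
  exact (isOpen_discrete _).preimage ((continuous_apply w).comp (continuous_apply i))

theorem isOpen_cyl (M : ℤ) (a : Y d) : IsOpen (cyl M a) := by
  have : cyl M a = ⋂ i, cylI i M a := by
    ext y
    simp [cyl, cylI]
  rw [this]
  exact isOpen_iInter_of_finite fun i => isOpen_cylI i M a

theorem mem_cyl (M : ℤ) (a : Y d) : a ∈ cyl M a := fun _ _ _ => rfl

theorem cyl_subset_cylI (i : Fin d) (M : ℤ) (a : Y d) : cyl M a ⊆ cylI i M a :=
  fun _ hy w hw => hy i w hw

theorem exists_cyl {W : Set (Y d)} (hW : IsOpen W) {a : Y d} (ha : a ∈ W) :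
    ∃ M : ℤ, 0 ≤ M ∧ cyl M a ⊆ W := by
  classical
  rw [isOpen_pi_iff] at hW
  obtain ⟨F, u, hu, hF⟩ := hW a ha
  have h1 : ∀ i : Fin d, ∃ M : ℤ, 0 ≤ M ∧
      (i ∈ F → ∀ z : (Fin d → ℤ) → Bool, (∀ w, (∀ l, |w l| ≤ M) → z w = a i w) → z ∈ u i) := by
    intro i
    by_cases hi : i ∈ F
    · have h2 := (hu i hi).1
      rw [isOpen_pi_iff] at h2
      obtain ⟨E, v, hv, hE⟩ := h2 (a i) (hu i hi).2
      refine ⟨∑ w ∈ E, ∑ l, |w l|, by positivity, fun _ z hz => hE fun w hw => ?_⟩
      have h3 : ∀ l, |w l| ≤ ∑ w ∈ E, ∑ l, |w l| := by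
        intro l
        have e1 : |w l| ≤ ∑ l, |w l| :=
          Finset.single_le_sum (f := fun l => |w l|) (fun q _ => abs_nonneg _) (Finset.mem_univ l)
        have e2 : ∑ l, |w l| ≤ ∑ w ∈ E, ∑ l, |w l| :=
          Finset.single_le_sum (f := fun w : Fin d → ℤ => ∑ l, |w l|)
            (fun q _ => by positivity) hw
        exact e1.trans e2
      rw [hz w h3]
      exact (hv w hw).2
    · exact ⟨0, le_refl 0, fun h => absurd h hi⟩
  choose M hM0 hM using h1
  refine ⟨∑ i, M i, Finset.sum_nonneg fun i _ => hM0 i, fun y hy => hF fun i hi => ?_⟩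
  refine hM i hi (y i) fun w hw => hy i w fun l => (hw l).trans ?_
  exact Finset.single_le_sum (f := M) (fun q _ => hM0 q) (Finset.mem_univ i)

/-- A Borel function is generically constant on some box inside every nonempty open set. -/
theorem exists_const {f : Y d → Bool} (hf : Measurable f) {U : Set (Y d)} (hU : IsOpen U)
    (hne : U.Nonempty) : ∃ (M : ℤ) (a : Y d) (b : Bool), 0 ≤ M ∧ cyl M a ⊆ U ∧
      ∀ᵇ y, y ∈ cyl M a → f y = b := by
  obtain ⟨O, hO, hfO⟩ := (hf (measurableSet_singleton true)).residualEq_isOpen
  have hfO' := hfO.mem_iff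
  by_cases h : (O ∩ U).Nonempty
  · obtain ⟨a, ha⟩ := h
    obtain ⟨M, hM, hsub⟩ := exists_cyl (hO.inter hU) ha
    refine ⟨M, a, true, hM, fun y hy => (hsub hy).2, ?_⟩
    filter_upwards [hfO'] with y hy hyc
    exact hy.mpr (hsub hyc).1
  · obtain ⟨a, ha⟩ := hne
    obtain ⟨M, hM, hsub⟩ := exists_cyl hU ha
    refine ⟨M, a, false, hM, hsub, ?_⟩
    filter_upwards [hfO'] with y hy hyc
    have : ¬ f y = true := fun h1 => h ⟨y, hy.mp h1, hsub hyc⟩
    simpa using this

/-- Generic properties of an open set follow from generic properties of a dense family of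
translates. -/
theorem spread {P : Y d → Prop} {U W : Set (Y d)} (hU : IsOpen U) (hW : IsOpen W)
    (u : ℤ → Fin d → ℤ) (hP : ∀ n, ∀ᵇ y, P (act (u n) y) → P y)
    (hUP : ∀ᵇ y, y ∈ U → P y)
    (hd : ∀ V : Set (Y d), IsOpen V → (V ∩ W).Nonempty →
      ∃ n, ∃ y ∈ V ∩ W, act (u n) y ∈ U) :
    ∀ᵇ y, y ∈ W → P y := by
  let O : Set (Y d) := (⋃ n, (act (u n) ⁻¹' U) ∩ W) ∪ (closure W)ᶜ
  have hO : IsOpen O := (isOpen_iUnion fun n => (hU.preimage (continuous_act _)).inter hW).union
    isClosed_closure.isOpen_compl
  have hOd : Dense O := by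
    rw [dense_iff_inter_open]
    rintro V hV ⟨a, ha⟩
    by_cases h : (V ∩ W).Nonempty
    · obtain ⟨n, y, hy1, hy2⟩ := hd V hV h
      exact ⟨y, hy1.1, Or.inl (mem_iUnion.mpr ⟨n, hy2, hy1.2⟩)⟩
    · refine ⟨a, ha, Or.inr fun hac => h ?_⟩
      exact mem_closure_iff.mp hac V hV ha
  have h1 : ∀ᵇ y, ∀ n : ℤ, P (act (u n) y) → P y := by
    rw [eventually_countable_forall]
    exact hP
  have h2 : ∀ᵇ y, ∀ n : ℤ, act (u n) y ∈ U → P (act (u n) y) := by
    rw [eventually_countable_forall]
    intro n
    exact generic_act (u n) hUP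
  have h3 : ∀ᵇ y, y ∈ O := residual_of_dense_open hO hOd
  filter_upwards [h1, h2, h3] with y hy1 hy2 hy3 hyW
  rcases hy3 with hy3 | hy3
  · obtain ⟨n, hn, -⟩ := mem_iUnion.mp hy3
    exact hy1 n (hy2 n hn)
  · exact absurd (subset_closure hyW) hy3

theorem not_generic_empty {U : Set (Y d)} (hU : IsOpen U) (hne : U.Nonempty) :
    ¬ ∀ᵇ y, y ∉ U := by
  intro h
  obtain ⟨y, hyU, hy⟩ := (dense_of_mem_residual h).inter_open_nonempty U hU hne
  exact hy hyU

/-- Spreading in the direction `i`: a generically constant function which is invariant under the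
square of the `i`-th generator depends on the component `i` only. -/
theorem spread_i (i : Fin d) {f : Y d → Bool} {M : ℤ} {a : Y d} {b : Bool} (_hM : 0 ≤ M)
    (hinv : ∀ n : ℤ, ∀ᵇ y, f (act (Pi.single i (2 * n)) y) = f y)
    (h : ∀ᵇ y, y ∈ cyl M a → f y = b) : ∀ᵇ y, y ∈ cylI i M a → f y = b := by
  refine spread (isOpen_cyl M a) (isOpen_cylI i M a) (fun n => Pi.single i (2 * n)) ?_ h ?_
  · intro n
    filter_upwards [hinv n] with y hy h1
    rw [← hy, h1]
  · rintro V hV ⟨a', ha'⟩
    obtain ⟨M', hM', hsub⟩ := exists_cyl (hV.inter (isOpen_cylI i M a)) ha'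
    refine ⟨M' + M + 1, ?_⟩
    classical
    let n : ℤ := M' + M + 1
    let y : Y d := fun k w => if k = i ∨ ∀ l, |w l| ≤ M' then a' k w else
      a k (w - Pi.single i (2 * n))
    refine ⟨y, hsub fun k w hw => ?_, fun k w hw => ?_⟩
    · simp only [y, hw, implies_true, or_true, if_true]
    · have hbod : ((Pi.single i (2 * n) : Fin d → ℤ) k).bodd = false := by
        by_cases hk : k = i
        · subst hk
          rw [Pi.single_eq_same, Int.bodd_mul, show Int.bodd 2 = false from rfl, Bool.false_and]
        · rw [Pi.single_eq_of_ne hk]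
          rfl
      show xor (y k (w + Function.update (Pi.single i (2 * n) : Fin d → ℤ) k 0))
        ((Pi.single i (2 * n) : Fin d → ℤ) k).bodd = a k w
      rw [hbod, Bool.xor_false]
      by_cases hk : k = i
      · subst hk
        have hup : Function.update (Pi.single k (2 * n) : Fin d → ℤ) k 0 = 0 := by
          rw [Pi.single, Function.update_idem, Function.update_eq_self_iff]
          rfl
        rw [hup, add_zero]
        simp only [y, true_or, if_true]
        exact ha'.2 w hw
      · have hup : Function.update (Pi.single i (2 * n) : Fin d → ℤ) k 0 =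
            Pi.single i (2 * n) := by
          rw [Function.update_eq_self_iff, Pi.single_eq_of_ne hk]
        rw [hup]
        have hnot : ¬ (k = i ∨ ∀ l, |(w + Pi.single i (2 * n) : Fin d → ℤ) l| ≤ M') := by
          rintro (h1 | h1)
          · exact hk h1
          · have h2 := h1 i
            have h3 := hw i
            rw [Pi.add_apply, Pi.single_eq_same, abs_le] at h2
            rw [abs_le] at h3
            have hn : n = M' + M + 1 := rfl
            omega
        simp only [y, hnot, if_false, add_sub_cancel_right]

/-- Spreading in another direction. -/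
theorem spread_j (i j : Fin d) (hij : i ≠ j) {f : Y d → Bool} {M : ℤ} {a : Y d} {b : Bool}
    (_hM : 0 ≤ M)
    (hinv : ∀ n : ℤ, ∀ᵇ y, f (act (Pi.single j n) y) = f y)
    (h : ∀ᵇ y, y ∈ cylI i M a → f y = b) : ∀ᵇ y, f y = b := by
  have key : ∀ᵇ y, y ∈ (univ : Set (Y d)) → f y = b := by
    refine spread (isOpen_cylI i M a) isOpen_univ (fun n => Pi.single j n) ?_ h ?_
    · intro n
      filter_upwards [hinv n] with y hy h1
      rw [← hy, h1]
    · rintro V hV ⟨a', ha'⟩
      obtain ⟨M', hM', hsub⟩ := exists_cyl hV ha'.1
      refine ⟨M' + M + 1, ?_⟩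
      classical
      let n : ℤ := M' + M + 1
      let y : Y d := fun k w => if ∀ l, |w l| ≤ M' then a' k w else a k (w - Pi.single j n)
      refine ⟨y, ⟨hsub fun k w hw => ?_, mem_univ _⟩, fun w hw => ?_⟩
      · simp only [y, hw, implies_true, if_true]
      · have hbod : ((Pi.single j n : Fin d → ℤ) i).bodd = false := by
          rw [Pi.single_eq_of_ne hij]
          rfl
        show xor (y i (w + Function.update (Pi.single j n : Fin d → ℤ) i 0))
          ((Pi.single j n : Fin d → ℤ) i).bodd = a i w
        rw [hbod, Bool.xor_false]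
        have hup : Function.update (Pi.single j n : Fin d → ℤ) i 0 = Pi.single j n := by
          rw [Function.update_eq_self_iff, Pi.single_eq_of_ne hij]
        rw [hup]
        have hnot : ¬ (∀ l, |(w + Pi.single j n : Fin d → ℤ) l| ≤ M') := by
          intro h1
          have h2 := h1 j
          have h3 := hw j
          rw [Pi.add_apply, Pi.single_eq_same, abs_le] at h2
          rw [abs_le] at h3
          have hn : n = M' + M + 1 := rfl
          omega
        simp only [y, hnot, if_false, add_sub_cancel_right]
  filter_upwards [key] with y hy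
  exact hy (mem_univ y)

/-- The main contradiction. -/
theorem no_tiling (i j : Fin d) (hij : i ≠ j) (t : Fin d → Y d → Bool)
    (ht : ∀ k, Measurable (t k))
    (hflip : ∀ k, ∀ᵇ y, t k (act (Pi.single k 1) y) = !(t k y))
    (hrule : ∀ᵇ y, t j y = true → t i (act (Pi.single j 1) y) = t i y) : False := by
  -- invariance under the squares of the generators
  have hinv : ∀ k, ∀ n : ℤ, ∀ᵇ y, t k (act (Pi.single k (2 * n)) y) = t k y := by
    intro k
    have h2 : ∀ᵇ y, t k (act (Pi.single k 2) y) = t k y := by
      filter_upwards [hflip k, generic_act (Pi.single k 1) (hflip k)] with y h1 h2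
      rw [← act_add, ← Pi.single_add, h1, Bool.not_not] at h2
      exact h2
    have hpos : ∀ n : ℕ, ∀ᵇ y, t k (act (Pi.single k (2 * (n : ℤ))) y) = t k y := by
      intro n
      induction n with
      | zero =>
        refine Eventually.of_forall fun y => ?_
        simp [act_zero]
      | succ n ih =>
        filter_upwards [ih, generic_act (Pi.single k (2 * (n : ℤ))) h2] with y h1 h3
        rw [← act_add, ← Pi.single_add, h1] at h3
        have e : 2 + 2 * (n : ℤ) = 2 * ((n + 1 : ℕ) : ℤ) := by push_cast; ring
        rw [← e]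
        exact h3
    intro n
    obtain ⟨m, rfl | rfl⟩ := n.eq_nat_or_neg
    · exact hpos m
    · filter_upwards [generic_act (Pi.single k (2 * (-(m : ℤ)))) (hpos m)] with y h1
      rw [← act_add, ← Pi.single_add] at h1
      have e : 2 * (m : ℤ) + 2 * (-(m : ℤ)) = 0 := by ring
      rw [e, Pi.single_zero, act_zero] at h1
      exact h1.symm
  -- `t i` is generically invariant under the generator `j`
  have hinvj : ∀ᵇ y, t i (act (Pi.single j 1) y) = t i y := by
    by_contra hcon
    let g : Y d → Bool := fun y => xor (t i (act (Pi.single j 1) y)) (t i y)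
    have hti : Measurable fun y => t i (act (Pi.single j 1) y) :=
      (ht i).comp (continuous_act _).measurable
    have hg : Measurable g :=
      (measurable_of_finite (fun q : Bool × Bool => xor q.1 q.2)).comp (hti.prodMk (ht i))
    -- an open set on which `t i` and its translate are generically different
    obtain ⟨O, hO, hgO⟩ := (hg (measurableSet_singleton true)).residualEq_isOpen
    have hgO' := hgO.mem_iff
    have hOne : O.Nonempty := by
      by_contra h
      rw [not_nonempty_iff_eq_empty] at h
      apply hcon
      filter_upwards [hgO'] with y hy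
      have : ¬ g y = true := fun h1 => by
        have := hy.mp h1
        rw [h] at this
        exact this
      simp only [g] at this
      revert this
      cases t i (act (Pi.single j 1) y) <;> cases t i y <;> simp
    obtain ⟨M1, a1, b, hM1, hsub1, hc1⟩ := exists_const (ht i) hO hOne
    obtain ⟨M2, a2, b', hM2, hsub2, hc2⟩ := exists_const (ht j) (isOpen_cyl M1 a1)
      ⟨a1, mem_cyl M1 a1⟩
    have hc1' : ∀ᵇ y, y ∈ cyl M2 a2 → t i y = b := by
      filter_upwards [hc1] with y hy hy2
      exact hy (hsub2 hy2)
    have hc3 : ∀ᵇ y, y ∈ cyl M2 a2 → t i (act (Pi.single j 1) y) = !b := by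
      filter_upwards [hc1', hgO'] with y hy1 hy2 hy3
      have h1 : g y = true := hy2.mpr (hsub1 (hsub2 hy3))
      have h2 := hy1 hy3
      simp only [g, h2] at h1
      revert h1
      cases t i (act (Pi.single j 1) y) <;> cases b <;> simp
    have s1 := spread_i i hM2 (hinv i) hc1'
    have hinv' : ∀ n : ℤ, ∀ᵇ y, (fun y => t i (act (Pi.single j 1) y))
        (act (Pi.single i (2 * n)) y) = (fun y => t i (act (Pi.single j 1) y)) y := by
      intro n
      filter_upwards [generic_act (Pi.single j 1) (hinv i n)] with y hy
      show t i (act (Pi.single j 1) (act (Pi.single i (2 * n)) y)) = _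
      rw [← act_add, add_comm, act_add]
      exact hy
    have s2 := spread_i i (f := fun y => t i (act (Pi.single j 1) y)) hM2 hinv' hc3
    -- hence `t j` is generically false where the component `i` is in the box
    have s3 : ∀ᵇ y, y ∈ cylI i M2 a2 → t j y = false := by
      filter_upwards [s1, s2, hrule] with y h1 h2 h3 h4
      by_contra h5
      have h6 : t j y = true := by simpa using h5
      have h7 := h3 h6
      rw [h1 h4] at h7
      have h8 : t i (act (Pi.single j 1) y) = !b := h2 h4
      rw [h7] at h8
      cases b <;> simp at h8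
    -- but `t j` depends on the component `j` only and is flipped
    have s4 : ∀ᵇ y, y ∈ cyl M2 a2 → t j y = false := by
      filter_upwards [s3] with y hy hy2
      exact hy (cyl_subset_cylI i M2 a2 hy2)
    have s5 := spread_i j hM2 (hinv j) s4
    have s6 : ∀ᵇ y, act (Pi.single j 1) y ∈ cylI j M2 a2 → t j y = true := by
      filter_upwards [generic_act (Pi.single j 1) s5, hflip j] with y h1 h2 h3
      have := h1 h3
      rw [h2] at this
      simpa using this
    -- a common point of the two open sets
    have hopen : IsOpen (cylI i M2 a2 ∩ (act (Pi.single j 1) ⁻¹' cylI j M2 a2)) :=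
      (isOpen_cylI _ _ _).inter ((isOpen_cylI _ _ _).preimage (continuous_act _))
    refine not_generic_empty hopen ?_ ?_
    · refine ⟨fun k w => if k = i then a2 k w else !(a2 k w), fun w _ => by simp, fun w _ => ?_⟩
      show xor ((fun k w => if k = i then a2 k w else !(a2 k w) : Y d) j
        (w + Function.update (Pi.single j 1 : Fin d → ℤ) j 0))
        ((Pi.single j 1 : Fin d → ℤ) j).bodd = a2 j w
      have hup : Function.update (Pi.single j 1 : Fin d → ℤ) j 0 = 0 := by
        rw [Pi.single, Function.update_idem, Function.update_eq_self_iff]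
        rfl
      rw [hup, add_zero, Pi.single_eq_same]
      simp [hij.symm]
    · filter_upwards [s3, s6] with y h1 h2 h3
      have e1 := h1 h3.1
      rw [h2 h3.2] at e1
      cases e1
  -- conclusion
  have hinvjn : ∀ n : ℤ, ∀ᵇ y, t i (act (Pi.single j n) y) = t i y := by
    have hpos : ∀ n : ℕ, ∀ᵇ y, t i (act (Pi.single j (n : ℤ)) y) = t i y := by
      intro n
      induction n with
      | zero =>
        refine Eventually.of_forall fun y => ?_
        simp [act_zero]
      | succ n ih =>
        filter_upwards [ih, generic_act (Pi.single j (n : ℤ)) hinvj] with y h1 h3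
        rw [← act_add, ← Pi.single_add, h1] at h3
        have e : 1 + (n : ℤ) = ((n + 1 : ℕ) : ℤ) := by push_cast; ring
        rw [← e]
        exact h3
    intro n
    obtain ⟨m, rfl | rfl⟩ := n.eq_nat_or_neg
    · exact hpos m
    · filter_upwards [generic_act (Pi.single j (-(m : ℤ))) (hpos m)] with y h1
      rw [← act_add, ← Pi.single_add, add_neg_cancel, Pi.single_zero, act_zero] at h1
      exact h1.symm
  obtain ⟨M, a, b, hM, -, hc⟩ := exists_const (ht i) isOpen_univ ⟨fun _ _ => false, mem_univ _⟩
  have s1 := spread_i i hM (hinv i) hc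
  have s2 := spread_j i j hij hM hinvjn s1
  refine not_generic_empty (d := d) isOpen_univ ⟨fun _ _ => false, mem_univ _⟩ ?_
  filter_upwards [s2, generic_act (Pi.single i 1) s2, hflip i] with y h1 h2 h3
  rw [h3, h1] at h2
  cases b <;> simp at h2

/-- The free part. -/
def F (d : ℕ) : Set (Y d) := {y | ∀ u : Fin d → ℤ, u ≠ 0 → act u y ≠ y}

theorem dense_free (hd : 2 ≤ d) (u : Fin d → ℤ) (hu : u ≠ 0) : Dense {y : Y d | act u y ≠ y} := by
  classical
  obtain ⟨j, hj⟩ : ∃ j, u j ≠ 0 := by
    by_contra h
    push Not at h
    exact hu (funext h)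
  -- a component different from `j`
  obtain ⟨i, hij⟩ : ∃ i : Fin d, i ≠ j := by
    haveI : Nontrivial (Fin d) := Fin.nontrivial_iff_two_le.mpr hd
    exact exists_ne j
  rw [dense_iff_inter_open]
  rintro W hW ⟨a, ha⟩
  obtain ⟨M, hM, hsub⟩ := exists_cyl hW ha
  -- the point `w₀` far away
  let N : ℤ := M + 1 + |u j|
  let w0 : Fin d → ℤ := Pi.single j N
  have hN1 : M < N := by
    have := abs_nonneg (u j)
    omega
  have hN2 : M < N + u j := by
    have := neg_abs_le (u j)
    omega
  let y : Y d := fun k w => if ∀ l, |w l| ≤ M then a k w else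
    xor (decide (w = w0)) (decide (w j = N) && (u i).bodd)
  refine ⟨y, hsub fun k w hw => ?_, fun h => ?_⟩
  · simp only [y, hw, implies_true, if_true]
  · have h1 : act u y i w0 = y i w0 := by rw [h]
    have e1 : ¬ ∀ l, |w0 l| ≤ M := by
      intro h2
      have := h2 j
      simp only [w0, Pi.single_eq_same, abs_le] at this
      omega
    have e2 : ¬ ∀ l, |(w0 + Function.update u i 0) l| ≤ M := by
      intro h2
      have := h2 j
      rw [Pi.add_apply, Function.update_of_ne hij.symm] at this
      simp only [w0, Pi.single_eq_same, abs_le] at this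
      omega
    have e3 : (w0 + Function.update u i 0) j = N + u j := by
      rw [Pi.add_apply, Function.update_of_ne hij.symm]
      simp [w0]
    have e4 : w0 + Function.update u i 0 ≠ w0 := by
      intro h2
      have := congrFun h2 j
      rw [e3] at this
      simp only [w0, Pi.single_eq_same] at this
      omega
    have e5 : ¬ (N + u j = N) := by omega
    have e6 : w0 j = N := by simp [w0]
    simp only [act, y, e1, e2, e3, e4, e5, e6, if_false, decide_false, decide_true,
      Bool.false_and, Bool.true_and, Bool.xor_false, Bool.false_xor] at h1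
    cases hb : (u i).bodd <;> simp [hb] at h1

theorem F_residual (hd : 2 ≤ d) : F d ∈ residual (Y d) := by
  have h1 : ∀ᵇ y : Y d, ∀ u : {u : Fin d → ℤ // u ≠ 0}, act u.1 y ≠ y := by
    rw [eventually_countable_forall]
    intro u
    exact residual_of_dense_open (isOpen_ne_fun (continuous_act _) continuous_id)
      (dense_free hd u.1 u.2)
  filter_upwards [h1] with y hy u hu
  exact hy ⟨u, hu⟩

theorem measurableSet_F : MeasurableSet (F d) := by
  have : F d = ⋂ u : {u : Fin d → ℤ // u ≠ 0}, {y | act u.1 y ≠ y} := by
    ext y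
    simp [F]
  rw [this]
  exact MeasurableSet.iInter fun u =>
    (isOpen_ne_fun (continuous_act _) continuous_id).measurableSet

theorem act_mem_F {y : Y d} (hy : y ∈ F d) (u : Fin d → ℤ) : act u y ∈ F d := by
  intro v hv h
  apply hy v hv
  have h2 : act (-u) (act v (act u y)) = act (-u) (act u y) := by rw [h]
  rw [← act_add, ← act_add, ← act_add] at h2
  have e1 : -u + v + u = v := by abel
  have e2 : -u + u = 0 := by abel
  rw [e1, e2, act_zero] at h2
  exact h2

/-- The action of `ℤ^d` on the free part. -/
@[reducible] def theAction (d : ℕ) : AddAction (Fin d → ℤ) (F d) where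
  vadd u y := ⟨act u y.1, act_mem_F y.2 u⟩
  zero_vadd y := Subtype.ext (act_zero y.1)
  add_vadd u v y := Subtype.ext (act_add u v y.1)

end Space

/-- **Main theorem.** For every `d ≥ 2` there is a free Borel action of `ℤ^d` on a standard Borel
space such that every coordinate subaction has a Borel proper 2-colouring, but the grid graph has no
Borel `2 ^ d`-polychromatic colouring. -/
theorem result (d : ℕ) (hd : 2 ≤ d) :
    ∃ (X : Type) (_ : MeasurableSpace X) (_ : StandardBorelSpace X)
      (_ : AddAction (Fin d → ℤ) X),
      (∀ u : Fin d → ℤ, Measurable fun x : X => u +ᵥ x) ∧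
      (∀ (u : Fin d → ℤ) (x : X), u +ᵥ x = x → u = 0) ∧
      (∃ c : Fin d → X → Bool, ∀ i, IsCoordColoring i (c i)) ∧
      ¬ ∃ p : X → Fin (2 ^ d), IsPolychromatic d (2 ^ d) p := by
  classical
  letI hact : AddAction (Fin d → ℤ) (F d) := theAction d
  have hcoe : ∀ (u : Fin d → ℤ) (y : F d), ((u +ᵥ y : F d) : Y d) = act u y.1 := fun _ _ => rfl
  refine ⟨F d, inferInstance, measurableSet_F.standardBorel, hact, ?_, ?_, ?_, ?_⟩
  · intro u
    exact ((continuous_act u).measurable.comp measurable_subtype_coe).subtype_mk
  · intro u x h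
    by_contra hu
    exact x.2 u hu (by rw [← hcoe, h])
  · refine ⟨fun i y => y.1 i 0, fun i => ⟨?_, fun y => ?_⟩⟩
    · exact ((measurable_pi_apply (0 : Fin d → ℤ)).comp
        ((measurable_pi_apply i).comp measurable_subtype_coe))
    · show ((((Pi.single i 1 : Fin d → ℤ) +ᵥ y : F d) : Y d) i 0) ≠ y.1 i 0
      rw [hcoe]
      have hup : Function.update (Pi.single i 1 : Fin d → ℤ) i 0 = 0 := by
        rw [Pi.single, Function.update_idem, Function.update_eq_self_iff]
        rfl
      simp [act, hup]
  · rintro ⟨p, hp, hpoly⟩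
    have hpow : 0 < 2 ^ d := by positivity
    let c0 : Fin (2 ^ d) := ⟨0, hpow⟩
    let toZ : (Fin d → Bool) → Fin d → ℤ := fun b i => if b i then 1 else 0
    -- uniqueness of the point of colour zero in a cube
    have hbij : ∀ x : F d, Function.Injective fun b : Fin d → Bool => p (toZ b +ᵥ x) := by
      intro x
      have hs : Function.Surjective fun b : Fin d → Bool => p (toZ b +ᵥ x) := by
        intro j
        obtain ⟨s, hs, hsj⟩ := hpoly x j
        refine ⟨fun i => decide (s i = 1), ?_⟩
        have : toZ (fun i => decide (s i = 1)) = s := by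
          funext i
          rcases hs i with h | h <;> simp [toZ, h]
        show p (toZ (fun i => decide (s i = 1)) +ᵥ x) = j
        rw [this]
        exact hsj
      have hcard : Fintype.card (Fin d → Bool) = Fintype.card (Fin (2 ^ d)) := by simp
      exact ((Fintype.bijective_iff_surjective_and_card _).mpr ⟨hs, hcard⟩).1
    have hex : ∀ x : F d, ∃ b : Fin d → Bool, p (toZ b +ᵥ x) = c0 := by
      intro x
      obtain ⟨s, hs, hsj⟩ := hpoly x c0
      refine ⟨fun i => decide (s i = 1), ?_⟩
      have : toZ (fun i => decide (s i = 1)) = s := by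
        funext i
        rcases hs i with h | h <;> simp [toZ, h]
      rw [this]
      exact hsj
    choose s hs using hex
    have hsu : ∀ x b, p (toZ b +ᵥ x) = c0 → b = s x := fun x b h =>
      hbij x (by show p _ = p _; rw [h, hs x])
    have htoZ : ∀ (b : Fin d → Bool) (k : Fin d), b k = true →
        toZ b = toZ (Function.update b k false) + Pi.single k 1 := by
      intro b k hb
      funext l
      by_cases hl : l = k
      · subst hl
        simp [toZ, hb]
      · simp [toZ, Function.update_of_ne hl, Pi.single_eq_of_ne hl]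
    have htoZ' : ∀ (b : Fin d → Bool) (k : Fin d), b k = false →
        toZ (Function.update b k true) = toZ b + Pi.single k 1 := by
      intro b k hb
      funext l
      by_cases hl : l = k
      · subst hl
        simp [toZ, hb]
      · simp [toZ, Function.update_of_ne hl, Pi.single_eq_of_ne hl]
    -- the local structure of the tiling
    have hone : ∀ (x : F d) (k : Fin d), s x k = true →
        s ((Pi.single k 1 : Fin d → ℤ) +ᵥ x) = Function.update (s x) k false := by
      intro x k hk
      refine (hsu _ _ ?_).symm
      rw [vadd_vadd, ← htoZ _ _ hk]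
      exact hs x
    have hzero : ∀ (x : F d) (k : Fin d), s x k = false →
        s ((Pi.single k 1 : Fin d → ℤ) +ᵥ x) k = true := by
      intro x k hk
      by_contra h
      have h' : s ((Pi.single k 1 : Fin d → ℤ) +ᵥ x) k = false := by simpa using h
      have h1 := hs ((Pi.single k 1 : Fin d → ℤ) +ᵥ x)
      rw [vadd_vadd, ← htoZ' _ _ h'] at h1
      have h2 := hsu x _ h1
      rw [← h2] at hk
      simp at hk
    -- measurability
    have hsm : ∀ b : Fin d → Bool, MeasurableSet {x : F d | s x = b} := by
      intro b
      have : {x : F d | s x = b} = (fun x : F d => p (toZ b +ᵥ x)) ⁻¹' {c0} := by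
        ext x
        constructor
        · rintro rfl
          exact hs x
        · intro h
          exact (hsu x b h).symm
      rw [this]
      have hm : Measurable fun x : F d => toZ b +ᵥ x :=
        ((continuous_act (toZ b)).measurable.comp measurable_subtype_coe).subtype_mk
      exact (hp.comp hm) (measurableSet_singleton c0)
    have hsmeas : Measurable s := by
      refine measurable_to_countable' fun b => ?_
      exact hsm b
    let t : Fin d → Y d → Bool := fun k y => if h : y ∈ F d then s ⟨y, h⟩ k else false
    have ht : ∀ k, Measurable (t k) := by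
      intro k
      exact Measurable.dite (s := F d) ((measurable_pi_apply k).comp hsmeas)
        (measurable_const (a := false)) measurableSet_F
    have htF : ∀ k (y : F d), t k y.1 = s y k := by
      intro k y
      simp only [t, y.2, dif_pos]
    obtain ⟨i, j, hij⟩ : ∃ i j : Fin d, i ≠ j :=
      ⟨⟨0, by omega⟩, ⟨1, by omega⟩, by simp [Fin.ext_iff]⟩
    refine no_tiling i j hij t ht (fun k => ?_) ?_
    · filter_upwards [F_residual hd] with y hy
      have e1 := htF k ⟨y, hy⟩
      have e2 := htF k ((Pi.single k 1 : Fin d → ℤ) +ᵥ (⟨y, hy⟩ : F d))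
      rw [hcoe] at e2
      rw [e1, e2]
      cases hk : s ⟨y, hy⟩ k
      · rw [hzero _ _ hk]; rfl
      · rw [hone _ _ hk]
        simp
    · filter_upwards [F_residual hd] with y hy
      have e1 := htF j ⟨y, hy⟩
      have e2 := htF i ((Pi.single j 1 : Fin d → ℤ) +ᵥ (⟨y, hy⟩ : F d))
      have e3 := htF i ⟨y, hy⟩
      rw [hcoe] at e2
      rw [e1, e2, e3]
      intro hk
      rw [hone _ _ hk, Function.update_of_ne hij]

end Pool.Agent.Results.MP_27056a_lc.NoPolychromatic
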